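import Pool.Agent.X137.Snp.Main

set_option autoImplicit false
set_option maxRecDepth 100000

open Finset

namespace Pool.Agent.X137.Snp

/-- colourings -/
abbrev Kap (k : ℕ) : Type := {κ : Fin 13 → Fin k // ∀ u v, G.Adj u v → κ u ≠ κ v}

noncomputable instance (k : ℕ) : Fintype (Kap k) := Fintype.ofFinite _

/-- the chromatic polynomial in `k` variables -/
noncomputable def Q (k : ℕ) : MvPolynomial ℕ ℤ :=
  ∑ᶠ κ : {κ : Fin 13 → Fin k // ∀ u v, G.Adj u v → κ u ≠ κ v},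
    ∏ v, (MvPolynomial.X ((κ.1 v : ℕ)) : MvPolynomial ℕ ℤ)

theorem Q_eq (k : ℕ) : Q k = E k (Ct 4 2 2 4 1) := by
  unfold Q
  rw [chrom_eq G.Adj k, R_eq]
  obtain ⟨h0, h1, h2, h3, h4⟩ := τ_univ
  rw [h0, h1, h2, h3, h4]

theorem pos_full : ∀ p ∈ Ct 4 2 2 4 1, 0 ≤ p.2 := by
  have h : (Ct 4 2 2 4 1).all (fun p => decide (0 ≤ p.2)) = true := by
    unfold Ct
    decide +kernel
  intro p hp
  rw [List.all_eq_true] at h
  exact of_decide_eq_true (h p hp)

theorem exists_c (k : ℕ) : ∃ c : YoungDiagram →₀ ℕ, Q k = c.sum (fun μ a => a • A k μ) := by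
  classical
  rw [Q_eq]
  have h : ∀ L : FL, (∀ p ∈ L, 0 ≤ p.2) →
      ∃ c : YoungDiagram →₀ ℕ, E k L = c.sum (fun μ a => a • A k μ) := by
    intro L
    induction L with
    | nil => intro _; exact ⟨0, by simp [E, ev]⟩
    | cons p L ih =>
      intro hL
      obtain ⟨c, hc⟩ := ih (fun q hq => hL q (List.mem_cons_of_mem _ hq))
      refine ⟨Finsupp.single (Y p.1) p.2.toNat + c, ?_⟩
      rw [Finsupp.sum_add_index' (h := fun (μ : YoungDiagram) (a : ℕ) => a • A k μ)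
        (fun μ => zero_smul _ _) (fun μ a b => add_smul _ _ _),
        Finsupp.sum_single_index (h := fun (μ : YoungDiagram) (a : ℕ) => a • A k μ)
          (zero_smul _ _), ← hc]
      unfold E
      rw [ev_cons]
      congr 1
      have h0 := hL p List.mem_cons_self
      rw [← natCast_zsmul, Int.toNat_of_nonneg h0]
  exact h _ pos_full

/-- content of a colouring -/
noncomputable def con {k : ℕ} (κ : Fin 13 → Fin k) : ℕ →₀ ℕ := ∑ v, Finsupp.single (κ v : ℕ) 1

theorem con_apply {k : ℕ} (κ : Fin 13 → Fin k) (i : ℕ) :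
    con κ i = (univ.filter (fun v => (κ v : ℕ) = i)).card := by
  unfold con
  rw [Finsupp.finsetSum_apply, Finset.card_filter]
  apply Finset.sum_congr rfl
  intro v _
  rw [Finsupp.single_apply]

theorem prod_X_eq {k : ℕ} (κ : Fin 13 → Fin k) :
    (∏ v, (MvPolynomial.X (κ v : ℕ) : MvPolynomial ℕ ℤ)) = MvPolynomial.monomial (con κ) 1 := by
  unfold con
  rw [MvPolynomial.monomial_sum_one]
  rfl

theorem coeff_Q (k : ℕ) (β : ℕ →₀ ℕ) :
    (Q k).coeff β = ∑ κ : Kap k, if con κ.1 = β then (1 : ℤ) else 0 := by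
  unfold Q
  rw [finsum_eq_sum_of_fintype, MvPolynomial.coeff_sum]
  apply Finset.sum_congr rfl
  intro κ _
  rw [prod_X_eq, MvPolynomial.coeff_monomial]

theorem mem_support_of (k : ℕ) (κ : Kap k) (β : ℕ →₀ ℕ) (h : con κ.1 = β) :
    β ∈ (Q k).support := by
  classical
  rw [MvPolynomial.mem_support_iff, coeff_Q]
  apply ne_of_gt
  apply Finset.sum_pos'
  · intro κ' _
    split_ifs <;> norm_num
  · exact ⟨κ, mem_univ _, by rw [if_pos h]; norm_num⟩

/-- exponent with three nonzero entries -/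
noncomputable def tri (a b c : ℕ) : ℕ →₀ ℕ :=
  Finsupp.single 0 a + Finsupp.single 1 b + Finsupp.single 2 c

theorem tri_apply (a b c i : ℕ) : tri a b c i =
    (if 0 = i then a else 0) + (if 1 = i then b else 0) + (if 2 = i then c else 0) := by
  unfold tri
  rw [Finsupp.add_apply, Finsupp.add_apply, Finsupp.single_apply, Finsupp.single_apply,
    Finsupp.single_apply]

theorem con_eq_tri (κ : Fin 13 → Fin 3) (a b c : ℕ)
    (h0 : (univ.filter (fun v => κ v = 0)).card = a) (h1 : (univ.filter (fun v => κ v = 1)).card = b)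
    (h2 : (univ.filter (fun v => κ v = 2)).card = c) : con κ = tri a b c := by
  ext i
  rw [con_apply, tri_apply]
  by_cases hi0 : i = 0
  · subst hi0
    rw [if_pos rfl, if_neg (by norm_num), if_neg (by norm_num), ← h0, add_zero, add_zero]
    congr 1
    apply Finset.filter_congr
    intro v _
    exact ⟨fun h => Fin.ext h, fun h => congrArg Fin.val h⟩
  by_cases hi1 : i = 1
  · subst hi1
    rw [if_neg (by norm_num), if_pos rfl, if_neg (by norm_num), ← h1, zero_add, add_zero]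
    congr 1
    apply Finset.filter_congr
    intro v _
    exact ⟨fun h => Fin.ext h, fun h => congrArg Fin.val h⟩
  by_cases hi2 : i = 2
  · subst hi2
    rw [if_neg (by norm_num), if_neg (by norm_num), if_pos rfl, ← h2, zero_add, zero_add]
    congr 1
    apply Finset.filter_congr
    intro v _
    exact ⟨fun h => Fin.ext h, fun h => congrArg Fin.val h⟩
  rw [if_neg (Ne.symm hi0), if_neg (Ne.symm hi1), if_neg (Ne.symm hi2)]
  rw [Finset.card_eq_zero, Finset.filter_eq_empty_iff]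
  intro v _ h
  have := (κ v).2
  omega

def κ1 : Fin 13 → Fin 3 := ![0, 0, 0, 0, 1, 1, 2, 2, 0, 0, 0, 0, 0]
def κ2 : Fin 13 → Fin 3 := ![0, 0, 0, 0, 1, 1, 0, 0, 1, 1, 1, 1, 0]

theorem κ1_proper : ∀ u v, G.Adj u v → κ1 u ≠ κ1 v := by
  change ∀ u v, ac (cl u) (cl v) = true → κ1 u ≠ κ1 v
  decide

theorem κ2_proper : ∀ u v, G.Adj u v → κ2 u ≠ κ2 v := by
  change ∀ u v, ac (cl u) (cl v) = true → κ2 u ≠ κ2 v
  decide

theorem mem1 : tri 9 2 2 ∈ (Q 3).support :=
  mem_support_of 3 ⟨κ1, κ1_proper⟩ _ (con_eq_tri κ1 9 2 2 (by decide) (by decide) (by decide))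

theorem mem2 : tri 7 6 0 ∈ (Q 3).support :=
  mem_support_of 3 ⟨κ2, κ2_proper⟩ _ (con_eq_tri κ2 7 6 0 (by decide) (by decide) (by decide))

theorem arith (a0 b0 c0 d0 e0 a1 b1 c1 d1 e1 a2 b2 c2 d2 e2 : ℕ)
    (ha : a0 + a1 + a2 = 4) (hb : b0 + b1 + b2 = 2) (hc : c0 + c1 + c2 = 2)
    (hd : d0 + d1 + d2 = 4) (he : e0 + e1 + e2 = 1)
    (s0 : a0 + b0 + c0 + d0 + e0 = 8) (s1 : a1 + b1 + c1 + d1 + e1 = 4)
    (t0 : stabB a0 b0 c0 d0 = true) (t1 : stabB a1 b1 c1 d1 = true) (t2 : stabB a2 b2 c2 d2 = true) :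
    False := by
  unfold stabB at t0 t1 t2
  simp only [Bool.and_eq_true, Bool.or_eq_true, beq_iff_eq] at t0 t1 t2
  omega

theorem not_mem : tri 8 4 1 ∉ (Q 3).support := by
  classical
  rw [MvPolynomial.mem_support_iff, not_not, coeff_Q]
  apply Finset.sum_eq_zero
  intro κ _
  rw [if_neg]
  intro h
  have hcard : ∀ i : ℕ, (univ.filter (fun v => (κ.1 v : ℕ) = i)).card = tri 8 4 1 i := by
    intro i; rw [← con_apply, h]
  have hst : ∀ i : ℕ, stabB (τ cl 0 (univ.filter (fun v => (κ.1 v : ℕ) = i)))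
      (τ cl 1 (univ.filter (fun v => (κ.1 v : ℕ) = i)))
      (τ cl 2 (univ.filter (fun v => (κ.1 v : ℕ) = i)))
      (τ cl 3 (univ.filter (fun v => (κ.1 v : ℕ) = i))) = true := by
    intro i
    rw [← stab_iff]
    intro u hu v hv huv
    rw [mem_filter] at hu hv
    exact κ.2 u v huv (Fin.ext (hu.2.trans hv.2.symm))
  have hsum : ∀ j : Fin 5, τ cl j (univ.filter (fun v => (κ.1 v : ℕ) = 0))
      + τ cl j (univ.filter (fun v => (κ.1 v : ℕ) = 1))
      + τ cl j (univ.filter (fun v => (κ.1 v : ℕ) = 2)) = τ cl j univ := by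
    intro j
    unfold τ
    rw [← Finset.card_union_of_disjoint, ← Finset.card_union_of_disjoint]
    · congr 1
      ext v
      simp only [mem_union, mem_filter, mem_univ, true_and]
      have := (κ.1 v).2
      constructor
      · rintro ((h | h) | h) <;> exact h.2
      · intro h
        by_cases h0 : (κ.1 v : ℕ) = 0
        · exact Or.inl (Or.inl ⟨h0, h⟩)
        by_cases h1 : (κ.1 v : ℕ) = 1
        · exact Or.inl (Or.inr ⟨h1, h⟩)
        exact Or.inr ⟨by omega, h⟩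
    · rw [Finset.disjoint_left]
      intro v h1 h2
      simp only [mem_union, mem_filter, mem_univ, true_and] at h1 h2
      omega
    · rw [Finset.disjoint_left]
      intro v h1 h2
      simp only [mem_filter, mem_univ, true_and] at h1 h2
      omega
  obtain ⟨u0, u1, u2, u3, u4⟩ := τ_univ
  have a0 := hsum 0
  have a1 := hsum 1
  have a2 := hsum 2
  have a3 := hsum 3
  have a4 := hsum 4
  rw [u0] at a0
  rw [u1] at a1
  rw [u2] at a2
  rw [u3] at a3
  rw [u4] at a4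
  have s0 := hcard 0
  have s1 := hcard 1
  rw [card_τ, tri_apply, if_pos rfl, if_neg (by norm_num), if_neg (by norm_num)] at s0
  rw [card_τ, tri_apply, if_neg (by norm_num), if_pos rfl, if_neg (by norm_num)] at s1
  exact arith _ _ _ _ _ _ _ _ _ _ _ _ _ _ _ a0 a1 a2 a3 a4 s0 s1 (hst 0) (hst 1) (hst 2)

theorem mem_hull : (fun i : ℕ => ((tri 8 4 1) i : ℝ)) ∈ convexHull ℝ
    ((fun β : ℕ →₀ ℕ => (fun i : ℕ => (β i : ℝ))) '' ((Q 3).support : Set (ℕ →₀ ℕ))) := by
  have h1 : (fun i : ℕ => ((tri 9 2 2) i : ℝ)) ∈ convexHull ℝ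
      ((fun β : ℕ →₀ ℕ => (fun i : ℕ => (β i : ℝ))) '' ((Q 3).support : Set (ℕ →₀ ℕ))) :=
    subset_convexHull ℝ _ ⟨_, mem1, rfl⟩
  have h2 : (fun i : ℕ => ((tri 7 6 0) i : ℝ)) ∈ convexHull ℝ
      ((fun β : ℕ →₀ ℕ => (fun i : ℕ => (β i : ℝ))) '' ((Q 3).support : Set (ℕ →₀ ℕ))) :=
    subset_convexHull ℝ _ ⟨_, mem2, rfl⟩
  have h3 := (convex_convexHull ℝ ((fun β : ℕ →₀ ℕ => (fun i : ℕ => (β i : ℝ))) ''
    ((Q 3).support : Set (ℕ →₀ ℕ)))) h1 h2 (show (0 : ℝ) ≤ 1 / 2 by norm_num)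
    (show (0 : ℝ) ≤ 1 / 2 by norm_num) (by norm_num)
  convert h3 using 1
  funext i
  simp only [Pi.add_apply, Pi.smul_apply, smul_eq_mul, tri_apply]
  by_cases hi0 : i = 0
  · subst hi0; norm_num
  by_cases hi1 : i = 1
  · subst hi1; norm_num
  by_cases hi2 : i = 2
  · subst hi2; norm_num
  rw [if_neg (Ne.symm hi0), if_neg (Ne.symm hi1), if_neg (Ne.symm hi2), if_neg (Ne.symm hi0),
    if_neg (Ne.symm hi1), if_neg (Ne.symm hi2), if_neg (Ne.symm hi0), if_neg (Ne.symm hi1),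
    if_neg (Ne.symm hi2)]
  norm_num

end Pool.Agent.X137.Snp
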