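import Mathlib

set_option autoImplicit false

open Finset

namespace Pool.Agent.X137.Snp

section Col

variable {V : Type} [Fintype V] [DecidableEq V] (adj : V → V → Prop)

open Classical in
/-- the chromatic polynomial in `k` variables of an induced subgraph, by recursion on `k` -/
noncomputable def R : ℕ → Finset V → MvPolynomial ℕ ℤ
  | 0, U => if U = ∅ then 1 else 0
  | k + 1, U => ∑ T ∈ U.powerset, if (∀ u ∈ T, ∀ v ∈ T, ¬ adj u v)
      then MvPolynomial.X k ^ T.card * R k (U \ T) else 0

open Classical in
/-- proper colourings of `U`, extended by zero -/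
noncomputable def F (k : ℕ) (U : Finset V) : Finset (V → ℕ) :=
  (Fintype.piFinset (fun v => if v ∈ U then range k else {0})).filter
    (fun f => ∀ u ∈ U, ∀ v ∈ U, adj u v → f u ≠ f v)

theorem mem_F (k : ℕ) (U : Finset V) (f : V → ℕ) : f ∈ F adj k U ↔
    (∀ v ∈ U, f v < k) ∧ (∀ v, v ∉ U → f v = 0) ∧ (∀ u ∈ U, ∀ v ∈ U, adj u v → f u ≠ f v) := by
  classical
  unfold F
  rw [mem_filter, Fintype.mem_piFinset]
  constructor
  · rintro ⟨h1, h2⟩
    refine ⟨fun v hv => ?_, fun v hv => ?_, h2⟩
    · have := h1 v; rw [if_pos hv, mem_range] at this; exact this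
    · have := h1 v; rw [if_neg hv, mem_singleton] at this; exact this
  · rintro ⟨h1, h2, h3⟩
    refine ⟨fun v => ?_, h3⟩
    by_cases hv : v ∈ U
    · rw [if_pos hv, mem_range]; exact h1 v hv
    · rw [if_neg hv, mem_singleton]; exact h2 v hv

theorem S_eq (k : ℕ) : ∀ (U : Finset V),
    ∑ f ∈ F adj k U, ∏ v ∈ U, (MvPolynomial.X (f v) : MvPolynomial ℕ ℤ) = R adj k U := by
  classical
  induction k with
  | zero =>
    intro U
    unfold R
    split_ifs with h
    · subst h
      have : F adj 0 (∅ : Finset V) = {fun _ => 0} := by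
        ext f
        rw [mem_F, mem_singleton]
        constructor
        · rintro ⟨_, h, _⟩
          funext v
          exact h v (Finset.notMem_empty v)
        · rintro rfl
          simp
      rw [this]
      simp
    · apply Finset.sum_eq_zero
      intro f hf
      rw [mem_F] at hf
      obtain ⟨v, hv⟩ := Finset.nonempty_iff_ne_empty.2 h
      exact absurd (hf.1 v hv) (Nat.not_lt_zero _)
  | succ k ih =>
    intro U
    unfold R
    rw [← Finset.sum_fiberwise_of_maps_to (s := F adj (k + 1) U) (t := U.powerset)
      (g := fun f => U.filter (fun v => f v = k))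
      (fun f _ => Finset.mem_powerset.2 (Finset.filter_subset _ _))]
    apply Finset.sum_congr rfl
    intro T hT
    rw [Finset.mem_powerset] at hT
    split_ifs with hst
    · rw [← ih, Finset.mul_sum]
      refine Finset.sum_bij' (i := fun f _ => fun v => if v ∈ T then 0 else f v)
        (j := fun g _ => fun v => if v ∈ T then k else g v) ?_ ?_ ?_ ?_ ?_
      · intro f hf
        rw [mem_filter, mem_F] at hf
        obtain ⟨⟨h1, h2, h3⟩, h4⟩ := hf
        rw [mem_F]
        refine ⟨?_, ?_, ?_⟩
        · intro v hv
          rw [mem_sdiff] at hv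
          simp only [if_neg hv.2]
          have h5 := h1 v hv.1
          have h6 : f v ≠ k := fun h => hv.2 (by rw [← h4, mem_filter]; exact ⟨hv.1, h⟩)
          omega
        · intro v hv
          by_cases hvT : v ∈ T
          · simp only [if_pos hvT]
          · simp only [if_neg hvT]
            exact h2 v (fun h => hv (mem_sdiff.2 ⟨h, hvT⟩))
        · intro u hu v hv huv
          rw [mem_sdiff] at hu hv
          simp only [if_neg hu.2, if_neg hv.2]
          exact h3 u hu.1 v hv.1 huv
      · intro g hg
        rw [mem_F] at hg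
        obtain ⟨h1, h2, h3⟩ := hg
        rw [mem_filter, mem_F]
        refine ⟨⟨?_, ?_, ?_⟩, ?_⟩
        · intro v hv
          by_cases hvT : v ∈ T
          · simp only [if_pos hvT]; omega
          · simp only [if_neg hvT]
            have := h1 v (mem_sdiff.2 ⟨hv, hvT⟩)
            omega
        · intro v hv
          have hvT : v ∉ T := fun h => hv (hT h)
          simp only [if_neg hvT]
          exact h2 v (fun h => hv (mem_sdiff.1 h).1)
        · intro u hu v hv huv
          by_cases huT : u ∈ T
          · by_cases hvT : v ∈ T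
            · exact absurd huv (hst u huT v hvT)
            · simp only [if_pos huT, if_neg hvT]
              have := h1 v (mem_sdiff.2 ⟨hv, hvT⟩)
              omega
          · by_cases hvT : v ∈ T
            · simp only [if_neg huT, if_pos hvT]
              have := h1 u (mem_sdiff.2 ⟨hu, huT⟩)
              omega
            · simp only [if_neg huT, if_neg hvT]
              exact h3 u (mem_sdiff.2 ⟨hu, huT⟩) v (mem_sdiff.2 ⟨hv, hvT⟩) huv
        · ext v
          rw [mem_filter]
          constructor
          · rintro ⟨hv, h⟩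
            by_contra hvT
            simp only [if_neg hvT] at h
            have := h1 v (mem_sdiff.2 ⟨hv, hvT⟩)
            omega
          · intro hvT
            exact ⟨hT hvT, by simp only [if_pos hvT]⟩
      · intro f hf
        rw [mem_filter, mem_F] at hf
        obtain ⟨_, h4⟩ := hf
        funext v
        by_cases hvT : v ∈ T
        · simp only [if_pos hvT]
          rw [← h4, mem_filter] at hvT
          exact hvT.2.symm
        · simp only [if_neg hvT]
      · intro g hg
        rw [mem_F] at hg
        funext v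
        by_cases hvT : v ∈ T
        · simp only [if_pos hvT]
          exact (hg.2.1 v (fun h => (mem_sdiff.1 h).2 hvT)).symm
        · simp only [if_neg hvT]
      · intro f hf
        rw [mem_filter, mem_F] at hf
        obtain ⟨_, h4⟩ := hf
        rw [← Finset.prod_sdiff hT, mul_comm]
        congr 1
        · rw [Finset.prod_congr rfl (g := fun _ => (MvPolynomial.X k : MvPolynomial ℕ ℤ)),
            Finset.prod_const]
          intro v hv
          rw [← h4, mem_filter] at hv
          rw [hv.2]
        · apply Finset.prod_congr rfl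
          intro v hv
          rw [mem_sdiff] at hv
          simp only [if_neg hv.2]
    · apply Finset.sum_eq_zero
      intro f hf
      rw [mem_filter, mem_F] at hf
      obtain ⟨⟨h1, h2, h3⟩, h4⟩ := hf
      exfalso
      apply hst
      intro u hu v hv huv
      rw [← h4, mem_filter] at hu hv
      exact h3 u hu.1 v hv.1 huv (hu.2.trans hv.2.symm)

theorem chrom_eq (k : ℕ) :
    (∑ᶠ κ : {κ : V → Fin k // ∀ u v, adj u v → κ u ≠ κ v},
      ∏ v, (MvPolynomial.X ((κ.1 v : ℕ)) : MvPolynomial ℕ ℤ)) = R adj k univ := by
  classical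
  rw [finsum_eq_sum_of_fintype, ← S_eq]
  refine Finset.sum_bij' (i := fun κ _ => fun v => (κ.1 v : ℕ))
    (j := fun f hf => ⟨fun v => ⟨f v, ((mem_F adj k univ f).1 hf).1 v (mem_univ v)⟩, ?_⟩) ?_ ?_ ?_ ?_ ?_
  · intro u v huv h
    exact ((mem_F adj k univ f).1 hf).2.2 u (mem_univ u) v (mem_univ v) huv (congrArg Fin.val h)
  · intro κ _
    rw [mem_F]
    refine ⟨fun v _ => (κ.1 v).2, fun v hv => absurd (mem_univ v) hv, fun u _ v _ huv h => ?_⟩
    exact κ.2 u v huv (Fin.ext h)
  · intro f hf
    exact mem_univ _
  · intro κ _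
    rfl
  · intro f hf
    rfl
  · intro κ _
    rfl

end Col

section Cnt

variable {M : Type*} [AddCommMonoid M]

/-- binomial sum -/
def B (u : ℕ) (g : ℕ → M) : M := ∑ a ∈ range (u + 1), (u.choose a) • g a

theorem B_congr (u : ℕ) {g h : ℕ → M} (H : ∀ a ≤ u, g a = h a) : B u g = B u h := by
  unfold B
  apply Finset.sum_congr rfl
  intro a ha
  rw [mem_range] at ha
  rw [H a (by omega)]

theorem B_zero (g : ℕ → M) : B 0 g = g 0 := by
  simp [B]

theorem B_add (u : ℕ) (g h : ℕ → M) : B u (fun a => g a + h a) = B u g + B u h := by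
  unfold B
  rw [← Finset.sum_add_distrib]
  apply Finset.sum_congr rfl
  intro a _
  rw [smul_add]

theorem B_succ (u : ℕ) (g : ℕ → M) : B (u + 1) g = B u g + B u (fun a => g (a + 1)) := by
  unfold B
  rw [Finset.sum_range_succ' _ (u + 1)]
  have h1 : ∀ a, ((u + 1).choose (a + 1)) • g (a + 1) = (u.choose a) • g (a + 1) + (u.choose (a + 1)) • g (a + 1) := by
    intro a
    rw [Nat.choose_succ_succ, add_smul]
  simp only [h1, Finset.sum_add_distrib]
  have h2 : ∑ a ∈ range (u + 1), (u.choose a) • g a
      = ∑ a ∈ range (u + 1), (u.choose (a + 1)) • g (a + 1) + (u.choose 0) • g 0 := by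
    rw [← Finset.sum_range_succ' (fun a => (u.choose a) • g a) (u + 1), Finset.sum_range_succ _ (u + 1)]
    simp
  rw [h2]
  simp only [Nat.choose_zero_right]
  abel

variable {V : Type} [DecidableEq V] (cl : V → Fin 5)

/-- class counts -/
def τ (i : Fin 5) (T : Finset V) : ℕ := (T.filter (fun v => cl v = i)).card

theorem τ_insert (i : Fin 5) (v : V) (T : Finset V) (h : v ∉ T) :
    τ cl i (insert v T) = τ cl i T + if cl v = i then 1 else 0 := by
  unfold τ
  rw [Finset.filter_insert]
  split_ifs with h1
  · rw [Finset.card_insert_of_notMem]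
    simp [h]
  · rfl

theorem sum_powerset (U : Finset V) : ∀ (Φ : ℕ → ℕ → ℕ → ℕ → ℕ → M),
    ∑ T ∈ U.powerset, Φ (τ cl 0 T) (τ cl 1 T) (τ cl 2 T) (τ cl 3 T) (τ cl 4 T)
      = B (τ cl 0 U) fun a => B (τ cl 1 U) fun b => B (τ cl 2 U) fun c => B (τ cl 3 U) fun d =>
          B (τ cl 4 U) fun e => Φ a b c d e := by
  induction U using Finset.induction_on with
  | empty =>
    intro Φ
    have h : ∀ i, τ cl i (∅ : Finset V) = 0 := by intro i; simp [τ]
    simp only [Finset.powerset_empty, Finset.sum_singleton, h, B_zero]
  | insert v U hv ih =>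
    intro Φ
    rw [Finset.sum_powerset_insert hv, ih Φ]
    have h1 : ∀ T ∈ U.powerset, Φ (τ cl 0 (insert v T)) (τ cl 1 (insert v T)) (τ cl 2 (insert v T))
        (τ cl 3 (insert v T)) (τ cl 4 (insert v T)) =
        Φ (τ cl 0 T + if cl v = 0 then 1 else 0) (τ cl 1 T + if cl v = 1 then 1 else 0)
          (τ cl 2 T + if cl v = 2 then 1 else 0) (τ cl 3 T + if cl v = 3 then 1 else 0)
          (τ cl 4 T + if cl v = 4 then 1 else 0) := by
      intro T hT
      have hvT : v ∉ T := fun h => hv (Finset.mem_powerset.1 hT h)
      simp only [τ_insert cl _ v T hvT]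
    rw [Finset.sum_congr rfl h1]
    rw [ih (fun a b c d e => Φ (a + if cl v = 0 then 1 else 0) (b + if cl v = 1 then 1 else 0)
          (c + if cl v = 2 then 1 else 0) (d + if cl v = 3 then 1 else 0)
          (e + if cl v = 4 then 1 else 0))]
    simp only [τ_insert cl _ v U hv]
    generalize cl v = i
    fin_cases i <;> simp [B_succ, B_add]

end Cnt

end Pool.Agent.X137.Snp
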