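import Pool.Agent.X137.Snp.Code
import Pool.Agent.X137.Snp.Color

set_option autoImplicit false

open Finset

namespace Pool.Agent.X137.Snp

abbrev FL : Type := List (ℕ × ℤ)

section
variable {M : Type*} [AddCommGroup M]

/-- evaluation of a formal sum -/
def ev (f : ℕ → M) (L : FL) : M := (L.map (fun p => p.2 • f p.1)).sum

theorem ev_nil (f : ℕ → M) : ev f [] = 0 := by simp [ev]

theorem ev_cons (f : ℕ → M) (p : ℕ × ℤ) (L : FL) : ev f (p :: L) = p.2 • f p.1 + ev f L := by
  simp [ev]

theorem ev_append (f : ℕ → M) (L L' : FL) : ev f (L ++ L') = ev f L + ev f L' := by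
  simp [ev]

theorem ev_congr {f g : ℕ → M} {L : FL} (h : ∀ p ∈ L, f p.1 = g p.1) : ev f L = ev g L := by
  unfold ev
  congr 1
  apply List.map_congr_left
  intro p hp
  rw [h p hp]

/-- merge of sorted formal sums -/
def addL : ℕ → FL → FL → FL
  | 0, x, y => x ++ y
  | _ + 1, [], y => y
  | _ + 1, x, [] => x
  | n + 1, (a, p) :: x, (b, q) :: y =>
    bif Nat.blt a b then (a, p) :: addL n x ((b, q) :: y)
    else bif Nat.blt b a then (b, q) :: addL n ((a, p) :: x) y
    else bif Nat.beq (p + q).natAbs 0 then addL n x y else (a, p + q) :: addL n x y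

theorem ev_addL (f : ℕ → M) : ∀ (n : ℕ) (x y : FL), ev f (addL n x y) = ev f x + ev f y := by
  intro n
  induction n with
  | zero => intro x y; rw [addL, ev_append]
  | succ n ih =>
    intro x y
    cases x with
    | nil => rw [addL, ev_nil, zero_add]
    | cons p x =>
      obtain ⟨a, p⟩ := p
      cases y with
      | nil =>
        rw [ev_nil, add_zero]
        rfl
      | cons q y =>
        obtain ⟨b, q⟩ := q
        rw [addL]
        have e1 : ∀ u v : ℕ, Nat.blt u v = decide (u < v) := by
          intro u v; rw [Bool.eq_iff_iff, decide_eq_true_iff, Nat.blt_eq]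
        have e2 : Nat.beq (p + q).natAbs 0 = decide (p + q = 0) := by
          rw [Bool.eq_iff_iff, decide_eq_true_iff, Nat.beq_eq, Int.natAbs_eq_zero]
        rw [e1, e1, e2]
        simp only [Bool.cond_decide]
        split_ifs with h1 h2 h3
        · simp only [ev_cons, ih]; abel
        · simp only [ev_cons, ih]; abel
        · have hab : a = b := by omega
          subst hab
          rw [ih, ev_cons, ev_cons]
          simp only
          have : p • f a + ev f x + (q • f a + ev f y) = (p + q) • f a + (ev f x + ev f y) := by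
            rw [add_smul]; abel
          rw [this, h3, zero_smul, zero_add]
        · have hab : a = b := by omega
          subst hab
          rw [ev_cons, ih, ev_cons, ev_cons]
          simp only
          rw [add_smul]; abel

/-- scaling -/
def smL (z : ℤ) (L : FL) : FL := L.map (fun p => (p.1, z * p.2))

theorem ev_smL (f : ℕ → M) (z : ℤ) (L : FL) : ev f (smL z L) = z • ev f L := by
  induction L with
  | nil => simp [smL, ev]
  | cons p L ih =>
    have : smL z (p :: L) = (p.1, z * p.2) :: smL z L := rfl
    rw [this, ev_cons, ih, ev_cons, smul_add, mul_smul]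

/-- binomial sum of formal sums -/
def BL (u : ℕ) (g : ℕ → FL) : FL :=
  (List.range (u + 1)).foldr (fun a acc => addL 1000 (smL (u.choose a : ℤ) (g a)) acc) []

theorem ev_BL (f : ℕ → M) (u : ℕ) (g : ℕ → FL) : ev f (BL u g) = B u (fun a => ev f (g a)) := by
  have h : ∀ l : List ℕ, ev f (l.foldr (fun a acc => addL 1000 (smL (u.choose a : ℤ) (g a)) acc) [])
      = (l.map (fun a => (u.choose a) • ev f (g a))).sum := by
    intro l
    induction l with
    | nil => simp [ev]
    | cons a l ih =>
      rw [List.foldr_cons, ev_addL, ih, ev_smL, List.map_cons, List.sum_cons, natCast_zsmul]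
  unfold BL B
  rw [h, ← List.sum_toFinset _ List.nodup_range, List.toFinset_range]

/-- all horizontal strip removals of a formal sum -/
def hsL (L : FL) : FL :=
  L.foldr (fun p acc => addL 1000 ((hsC 14 p.1).map (fun m => (m, p.2))) acc) []

theorem ev_hsL (f : ℕ → M) (L : FL) :
    ev f (hsL L) = ev (fun c => ((hsC 14 c).map f).sum) L := by
  have h1 : ∀ (l : List ℕ) (z : ℤ), ev f (l.map (fun m => (m, z))) = z • (l.map f).sum := by
    intro l z
    induction l with
    | nil => simp [ev]
    | cons a l ih => rw [List.map_cons, ev_cons, ih, List.map_cons, List.sum_cons, smul_add]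
  unfold hsL
  induction L with
  | nil => simp [ev]
  | cons p L ih => rw [List.foldr_cons, ev_addL, ih, h1, ev_cons]

end

section
open MvPolynomial

/-- evaluation in `k` variables -/
noncomputable def E (k : ℕ) (L : FL) : MvPolynomial ℕ ℤ := ev (fun m => A k (Y m)) L

/-- all entries of `L` are partitions of `n` -/
def okL (n : ℕ) (L : FL) : Prop := ∀ p ∈ L, Val p.1 ∧ sz 14 p.1 = n

/-- evaluation with a new variable -/
noncomputable def E' (k n : ℕ) (L : FL) : MvPolynomial ℕ ℤ :=
  ev (fun m => (X k : MvPolynomial ℕ ℤ) ^ (n - sz 14 m) * A k (Y m)) L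

theorem E'_of_ok (k n j : ℕ) (L : FL) (hj : j ≤ n) (h : okL (n - j) L) :
    E' k n L = (X k : MvPolynomial ℕ ℤ) ^ j * E k L := by
  unfold E' E
  have : ev (fun m => (X k : MvPolynomial ℕ ℤ) ^ (n - sz 14 m) * A k (Y m)) L
      = ev (fun m => (X k : MvPolynomial ℕ ℤ) ^ j * A k (Y m)) L := by
    apply ev_congr
    intro p hp
    rw [(h p hp).2]
    congr 2
    omega
  rw [this]
  unfold ev
  rw [← List.sum_map_mul_left]
  congr 1
  apply List.map_congr_left
  intro p _
  rw [mul_smul_comm]

theorem E_succ (k n : ℕ) (L : FL) (h : okL n L) : E (k + 1) L = E' k n (hsL L) := by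
  unfold E E'
  rw [ev_hsL]
  apply ev_congr
  intro p hp
  rw [A_Y_succ k p.1 (h p hp).1, (h p hp).2]

end

end Pool.Agent.X137.Snp
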