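import Pool.Agent.X137.Snp.Alg
import Pool.Agent.X137.Snp.Tab

set_option autoImplicit false
set_option maxRecDepth 100000

open Finset

namespace Pool.Agent.X137.Snp

/-- table of Schur expansions -/
def Ct (a b c d e : ℕ) : FL :=
  (((([tb0, tb1, tb2, tb3, tb4].getD a []).getD b []).getD c []).getD d []).getD e []

/-- stable type vectors -/
def stabB (a b c d : ℕ) : Bool := (a == 0 || b == 0) && (b == 0 || c == 0) && (c == 0 || d == 0)

/-- transfer side -/
def L1 (a b c d e : ℕ) : FL :=
  BL a fun t0 => BL b fun t1 => BL c fun t2 => BL d fun t3 => BL e fun t4 =>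
    bif stabB t0 t1 t2 t3 then Ct (a - t0) (b - t1) (c - t2) (d - t3) (e - t4) else []

def valB (c : ℕ) : Bool :=
  (List.range 14).all (fun i => Nat.ble (row c (i + 1)) (row c i)) && Nat.blt c (16 ^ 14)

def okB (n : ℕ) (L : FL) : Bool := L.all (fun p => valB p.1 && Nat.beq (sz 14 p.1) n)

def beqL : FL → FL → Bool
  | [], [] => true
  | (a, p) :: x, (b, q) :: y => Nat.beq a b && decide (p = q) && beqL x y
  | _, _ => false

def chk (a b c d e : ℕ) : Bool :=
  okB (a + b + c + d + e) (Ct a b c d e) && beqL (L1 a b c d e) (hsL (Ct a b c d e))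

def chkB (a b : ℕ) : Bool :=
  (List.range 3).all fun c => (List.range 5).all fun d => (List.range 2).all fun e => chk a b c d e

end Pool.Agent.X137.Snp
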