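import Pool.Agent.X137.Snp.Check

set_option autoImplicit false
set_option maxRecDepth 100000

namespace Pool.Agent.X137.Snp

theorem chk00 : chkB 0 0 = true := by decide +kernel

theorem chk01 : chkB 0 1 = true := by decide +kernel

theorem chk02 : chkB 0 2 = true := by decide +kernel

theorem chk10 : chkB 1 0 = true := by decide +kernel

theorem chk11 : chkB 1 1 = true := by decide +kernel

theorem chk12 : chkB 1 2 = true := by decide +kernel

theorem chk20 : chkB 2 0 = true := by decide +kernel

theorem chk21 : chkB 2 1 = true := by decide +kernel

theorem chk22 : chkB 2 2 = true := by decide +kernel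

end Pool.Agent.X137.Snp
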