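import Pool.Agent.X137.Snp.Ssyt

set_option autoImplicit false

open Finset

namespace Pool.Agent.X137.Snp

/-- `i`-th hexadecimal digit -/
def row (c i : ℕ) : ℕ := c / 16 ^ i % 16

theorem row_zero (c : ℕ) : row c 0 = c % 16 := by simp [row]

theorem row_succ (c i : ℕ) : row c (i + 1) = row (c / 16) i := by
  unfold row
  rw [Nat.div_div_eq_div_mul, pow_succ, mul_comm]

theorem row_lt (c i : ℕ) : row c i < 16 := Nat.mod_lt _ (by norm_num)

theorem row_ext : ∀ (n : ℕ) (c d : ℕ), c < 16 ^ n → d < 16 ^ n → (∀ i, row c i = row d i) → c = d := by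
  intro n
  induction n with
  | zero => intro c d hc hd _; simp at hc hd; omega
  | succ n ih =>
    intro c d hc hd h
    have h0 := h 0
    rw [row_zero, row_zero] at h0
    have h1 : c / 16 = d / 16 := by
      apply ih
      · rw [pow_succ] at hc; exact Nat.div_lt_of_lt_mul (by rw [mul_comm]; exact hc)
      · rw [pow_succ] at hd; exact Nat.div_lt_of_lt_mul (by rw [mul_comm]; exact hd)
      · intro i
        rw [← row_succ, ← row_succ]; exact h (i + 1)
    omega

theorem row_eq {c d : ℕ} (h : ∀ i, row c i = row d i) : c = d := by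
  have hb : ∀ x : ℕ, x < 16 ^ x := fun x => Nat.lt_pow_self (by norm_num)
  refine row_ext (max c d) c d ?_ ?_ h
  · exact lt_of_lt_of_le (hb c) (Nat.pow_le_pow_right (by norm_num) (le_max_left _ _))
  · exact lt_of_lt_of_le (hb d) (Nat.pow_le_pow_right (by norm_num) (le_max_right _ _))

theorem row_of_lt {n c : ℕ} (h : c < 16 ^ n) (i : ℕ) (hi : n ≤ i) : row c i = 0 := by
  unfold row
  rw [Nat.div_eq_of_lt]
  exact lt_of_lt_of_le h (Nat.pow_le_pow_right (by norm_num) hi)

/-- encoding of a function -/
def encF : ℕ → (ℕ → ℕ) → ℕ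
  | 0, _ => 0
  | n + 1, f => 16 * encF n (fun i => f (i + 1)) + f 0

theorem row_encF : ∀ (n : ℕ) (f : ℕ → ℕ), (∀ i, f i < 16) → ∀ i, row (encF n f) i = if i < n then f i else 0 := by
  intro n
  induction n with
  | zero => intro f _ i; simp [encF, row]
  | succ n ih =>
    intro f hf i
    have h0 := hf 0
    cases i with
    | zero =>
      rw [row_zero, encF, if_pos (Nat.succ_pos n)]
      omega
    | succ i =>
      rw [row_succ, encF]
      have h1 : (16 * encF n (fun i => f (i + 1)) + f 0) / 16 = encF n (fun i => f (i + 1)) := by omega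
      rw [h1, ih (fun i => f (i + 1)) (fun i => hf (i + 1)) i]
      by_cases hi : i < n
      · rw [if_pos hi, if_pos (by omega)]
      · rw [if_neg hi, if_neg (by omega)]

/-- Young diagram with code `c` -/
def Y (c : ℕ) : YoungDiagram where
  cells := ((range 16) ×ˢ (range 16)).filter (fun p : ℕ × ℕ => ∀ i' < p.1 + 1, p.2 < row c i')
  isLowerSet := by
    rintro ⟨i, j⟩ ⟨i', j'⟩ h hm
    simp only [coe_filter, mem_product, mem_range, Set.mem_ofPred_eq] at hm ⊢
    have hi : i' ≤ i := h.1
    have hj : j' ≤ j := h.2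
    obtain ⟨⟨h1, h2⟩, h3⟩ := hm
    refine ⟨⟨by omega, by omega⟩, fun a ha => ?_⟩
    exact lt_of_le_of_lt hj (h3 a (by omega))

/-- codes of partitions -/
def Val (c : ℕ) : Prop := (∀ i, row c (i + 1) ≤ row c i) ∧ c < 16 ^ 14

theorem Val.anti {c : ℕ} (h : Val c) {i j : ℕ} (hij : i ≤ j) : row c j ≤ row c i := by
  obtain ⟨d, rfl⟩ := Nat.exists_eq_add_of_le hij
  clear hij
  induction d with
  | zero => exact le_rfl
  | succ d ih => exact le_trans (h.1 (i + d)) ih

theorem mem_Y {c : ℕ} (h : Val c) (i j : ℕ) : (i, j) ∈ Y c ↔ j < row c i := by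
  rw [← YoungDiagram.mem_cells]
  simp only [Y, mem_filter, mem_product, mem_range]
  constructor
  · rintro ⟨_, h2⟩
    exact h2 i (Nat.lt_succ_self i)
  · intro hj
    have h1 := row_lt c i
    have hi : i < 14 := by
      by_contra hc
      rw [row_of_lt h.2 i (by omega)] at hj
      omega
    refine ⟨⟨by omega, by omega⟩, fun a ha => ?_⟩
    exact lt_of_lt_of_le hj (h.anti (by omega))

/-- interlacing -/
def Cond (m c : ℕ) : Prop := ∀ i, row c (i + 1) ≤ row m i ∧ row m i ≤ row c i

theorem Cond.val {m c : ℕ} (h : Cond m c) (hc : Val c) : Val m := by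
  refine ⟨fun i => le_trans (h (i + 1)).2 (h i).1, ?_⟩
  have h1 : m / 16 ^ 14 = 0 := by
    apply row_eq
    intro i
    have : row (m / 16 ^ 14) i = row m (14 + i) := by
      unfold row
      rw [Nat.div_div_eq_div_mul, pow_add]
    rw [this]
    have h2 := (h (14 + i)).2
    rw [row_of_lt hc.2 (14 + i) (by omega)] at h2
    rw [Nat.le_zero.1 h2]
    simp [row]
  rcases Nat.div_eq_zero_iff.1 h1 with h2 | h2
  · norm_num at h2
  · exact h2

/-- list of the codes obtained by removing a horizontal strip -/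
def hsC : ℕ → ℕ → List ℕ
  | 0, _ => [0]
  | n + 1, c => if c / 16 = 0 then List.range (c % 16 + 1) else
      (hsC n (c / 16)).flatMap (fun m' =>
        (List.range' (c / 16 % 16) (c % 16 + 1 - c / 16 % 16)).map (fun m0 => 16 * m' + m0))

theorem cond_zero (m : ℕ) : Cond m 0 ↔ m = 0 := by
  constructor
  · intro h
    apply row_eq
    intro i
    have := (h i).2
    have h0 : row 0 i = 0 := by simp [row]
    omega
  · rintro rfl i
    have h0 : ∀ i, row 0 i = 0 := by intro i; simp [row]
    rw [h0, h0]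
    exact ⟨le_rfl, le_rfl⟩

theorem cond_succ (m c : ℕ) : Cond m c ↔ Cond (m / 16) (c / 16) ∧ c / 16 % 16 ≤ m % 16 ∧ m % 16 ≤ c % 16 := by
  unfold Cond
  constructor
  · intro h
    refine ⟨fun i => ?_, ?_⟩
    · have := h (i + 1)
      rw [row_succ, row_succ, row_succ] at this
      rw [row_succ] at this ⊢
      exact this
    · have := h 0
      rw [row_succ, row_zero, row_zero, row_zero] at this
      exact this
  · rintro ⟨h1, h2, h3⟩ i
    cases i with
    | zero => rw [row_succ, row_zero, row_zero, row_zero]; exact ⟨h2, h3⟩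
    | succ i => rw [row_succ, row_succ m, row_succ c i]; exact h1 i

theorem mem_hsC : ∀ (n c m : ℕ), c < 16 ^ n → (m ∈ hsC n c ↔ Cond m c) := by
  intro n
  induction n with
  | zero =>
    intro c m hc
    have : c = 0 := by simpa using hc
    subst this
    rw [cond_zero]
    simp [hsC]
  | succ n ih =>
    intro c m hc
    have hc' : c / 16 < 16 ^ n := by
      rw [pow_succ] at hc; exact Nat.div_lt_of_lt_mul (by rw [mul_comm]; exact hc)
    rw [cond_succ, hsC]
    by_cases h0 : c / 16 = 0
    · rw [if_pos h0, h0, cond_zero, List.mem_range]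
      omega
    · rw [if_neg h0, List.mem_flatMap]
      constructor
      · rintro ⟨m', hm', h1⟩
        rw [List.mem_map] at h1
        obtain ⟨m0, h2, rfl⟩ := h1
        rw [List.mem_range'_1] at h2
        have h3 : (16 * m' + m0) / 16 = m' := by omega
        have h4 : (16 * m' + m0) % 16 = m0 := by omega
        rw [h3, h4]
        exact ⟨(ih _ _ hc').1 hm', by omega, by omega⟩
      · rintro ⟨h1, h2, h3⟩
        refine ⟨m / 16, (ih _ _ hc').2 h1, ?_⟩
        rw [List.mem_map]
        refine ⟨m % 16, ?_, by omega⟩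
        rw [List.mem_range'_1]
        omega

theorem nodup_hsC : ∀ (n c : ℕ), (hsC n c).Nodup := by
  intro n
  induction n with
  | zero => intro c; simp [hsC]
  | succ n ih =>
    intro c
    rw [hsC]
    split_ifs with h0
    · exact List.nodup_range
    · rw [List.nodup_flatMap]
      refine ⟨fun m' _ => ?_, ?_⟩
      · apply List.Nodup.map
        · intro a b h; simp only at h; omega
        · exact List.nodup_range' 
      · refine List.Pairwise.imp ?_ (ih (c / 16))
        intro a b hab
        simp only [Function.onFun]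
        intro x hx hy
        rw [List.mem_map] at hx hy
        obtain ⟨p, hp, rfl⟩ := hx
        obtain ⟨q, hq, h⟩ := hy
        rw [List.mem_range'_1] at hp hq
        omega

theorem rowLen_Y {c : ℕ} (h : Val c) (i : ℕ) : (Y c).rowLen i = row c i := by
  apply le_antisymm
  · by_contra hlt
    push Not at hlt
    have := (YoungDiagram.mem_iff_lt_rowLen (μ := Y c)).2 hlt
    rw [mem_Y h] at this
    exact lt_irrefl _ this
  · by_contra hlt
    push Not at hlt
    have := (mem_Y h i _).2 hlt
    rw [YoungDiagram.mem_iff_lt_rowLen] at this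
    exact lt_irrefl _ this

theorem Y_inj {c d : ℕ} (hc : Val c) (hd : Val d) (h : Y c = Y d) : c = d := by
  apply row_eq
  intro i
  rw [← rowLen_Y hc, ← rowLen_Y hd, h]

theorem HS_iff {c : ℕ} (hc : Val c) (μ : YoungDiagram) :
    HS μ (Y c) ↔ ∃ m, Cond m c ∧ Y m = μ := by
  constructor
  · rintro ⟨h1, h2⟩
    have hle : ∀ i, μ.rowLen i ≤ row c i := by
      intro i
      by_contra hlt
      push Not at hlt
      have h3 := h1 ((YoungDiagram.mem_iff_lt_rowLen (μ := μ)).2 hlt)
      rw [mem_Y hc] at h3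
      exact lt_irrefl _ h3
    have hge : ∀ i, row c (i + 1) ≤ μ.rowLen i := by
      intro i
      by_contra hlt
      push Not at hlt
      have h3 := h2 i _ ((mem_Y hc (i + 1) _).2 hlt)
      rw [YoungDiagram.mem_iff_lt_rowLen] at h3
      exact lt_irrefl _ h3
    have hr : ∀ i, row (encF 14 (fun i => μ.rowLen i)) i = μ.rowLen i := by
      intro i
      rw [row_encF 14 _ (fun i => lt_of_le_of_lt (hle i) (row_lt c i)) i]
      split_ifs with h
      · rfl
      · have := hle i
        rw [row_of_lt hc.2 i (by omega)] at this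
        omega
    have hcond : Cond (encF 14 (fun i => μ.rowLen i)) c := by
      intro i
      rw [hr]
      exact ⟨hge i, hle i⟩
    refine ⟨_, hcond, ?_⟩
    apply YoungDiagram.ext
    ext ⟨i, j⟩
    rw [YoungDiagram.mem_cells, YoungDiagram.mem_cells, mem_Y (hcond.val hc), hr,
      YoungDiagram.mem_iff_lt_rowLen]
  · rintro ⟨m, hm, rfl⟩
    have hmv := hm.val hc
    refine ⟨?_, ?_⟩
    · rintro ⟨i, j⟩ h
      rw [mem_Y hmv] at h
      rw [mem_Y hc]
      exact lt_of_lt_of_le h (hm i).2
    · intro i j h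
      rw [mem_Y hc] at h
      rw [mem_Y hmv]
      exact lt_of_lt_of_le h (hm i).1

/-- digit sum with fuel -/
def sz : ℕ → ℕ → ℕ
  | 0, _ => 0
  | n + 1, c => c % 16 + sz n (c / 16)

theorem sz_eq : ∀ n c, sz n c = ∑ i ∈ range n, row c i := by
  intro n
  induction n with
  | zero => intro c; simp [sz]
  | succ n ih =>
    intro c
    rw [sz, ih, Finset.sum_range_succ', add_comm]
    simp only [row_succ, row_zero]

theorem card_Y {c : ℕ} (h : Val c) : (Y c).card = sz 14 c := by
  rw [sz_eq]
  have h1 : (Y c).cells = (range 14).biUnion (fun i => (range (row c i)).map ⟨fun j => (i, j), fun a b hab => (Prod.mk.inj hab).2⟩) := by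
    ext ⟨i, j⟩
    rw [YoungDiagram.mem_cells, mem_Y h]
    simp only [mem_biUnion, mem_range, mem_map, Function.Embedding.coeFn_mk, Prod.mk.injEq]
    constructor
    · intro hj
      refine ⟨i, ?_, j, hj, rfl, rfl⟩
      by_contra hc
      rw [row_of_lt h.2 i (by omega)] at hj
      omega
    · rintro ⟨i', _, j', h2, rfl, rfl⟩
      exact h2
  unfold YoungDiagram.card
  rw [h1, card_biUnion]
  · simp
  · intro a _ b _ hab
    rw [Function.onFun, Finset.disjoint_left]
    rintro ⟨x, y⟩ hx hy
    simp only [mem_map, mem_range, Function.Embedding.coeFn_mk, Prod.mk.injEq] at hx hy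
    obtain ⟨_, _, h3, _⟩ := hx
    obtain ⟨_, _, h4, _⟩ := hy
    exact hab (h3.trans h4.symm)

theorem A_Y_succ (k c : ℕ) (h : Val c) :
    A (k + 1) (Y c) = ((hsC 14 c).map (fun m =>
      (MvPolynomial.X k : MvPolynomial ℕ ℤ) ^ (sz 14 c - sz 14 m) * A k (Y m))).sum := by
  classical
  have hmem : ∀ m, m ∈ hsC 14 c ↔ Cond m c := fun m => mem_hsC 14 c m h.2
  have hnd : (hsC 14 c).Nodup := nodup_hsC 14 c
  have hsz : ∀ c, Val c → (Y c).card = sz 14 c := fun c h => card_Y h
  generalize hsC 14 c = L at hmem hnd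
  generalize sz 14 = S at hsz
  have hval : ∀ m ∈ L, Val m := fun m hm => ((hmem m).1 hm).val h
  rw [A_succ k (Y c) (L.toFinset.image Y)]
  · rw [Finset.sum_image]
    · rw [← List.sum_toFinset _ hnd]
      apply Finset.sum_congr rfl
      intro m hm
      rw [hsz _ h, hsz _ (hval m (List.mem_toFinset.1 hm))]
    · intro a ha b hb hab
      exact Y_inj (hval a (List.mem_toFinset.1 ha)) (hval b (List.mem_toFinset.1 hb)) hab
  · intro μ
    rw [HS_iff h, Finset.mem_image]
    constructor
    · rintro ⟨m, hm, rfl⟩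
      exact ⟨m, (hmem m).1 (List.mem_toFinset.1 hm), rfl⟩
    · rintro ⟨m, hm, rfl⟩
      exact ⟨m, List.mem_toFinset.2 ((hmem m).2 hm), rfl⟩

end Pool.Agent.X137.Snp
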