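import Pool.Agent.X137.Snp.ChkA
import Pool.Agent.X137.Snp.ChkB
import Pool.Agent.X137.Snp.ChkC
import Pool.Agent.X137.Snp.ChkD

set_option autoImplicit false
set_option maxRecDepth 100000

open Finset

namespace Pool.Agent.X137.Snp

theorem valB_sound {c : ℕ} (h : valB c = true) : Val c := by
  unfold valB at h
  rw [Bool.and_eq_true, List.all_eq_true] at h
  obtain ⟨h1, h2⟩ := h
  have h2' : c < 16 ^ 14 := by
    have : Nat.blt c (16 ^ 14) = decide (c < 16 ^ 14) := by
      rw [Bool.eq_iff_iff, decide_eq_true_iff, Nat.blt_eq]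
    rw [this, decide_eq_true_iff] at h2
    exact h2
  refine ⟨fun i => ?_, h2'⟩
  by_cases hi : i < 14
  · exact Nat.le_of_ble_eq_true (h1 i (List.mem_range.2 hi))
  · rw [row_of_lt h2' (i + 1) (by omega)]
    exact Nat.zero_le _

theorem okB_sound {n : ℕ} {L : FL} (h : okB n L = true) : okL n L := by
  unfold okB at h
  rw [List.all_eq_true] at h
  intro p hp
  have := h p hp
  rw [Bool.and_eq_true] at this
  exact ⟨valB_sound this.1, Nat.eq_of_beq_eq_true this.2⟩

theorem beqL_sound : ∀ (x y : FL), beqL x y = true → x = y := by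
  intro x
  induction x with
  | nil =>
    intro y h
    cases y with
    | nil => rfl
    | cons q y => simp [beqL] at h
  | cons p x ih =>
    intro y h
    cases y with
    | nil => simp [beqL] at h
    | cons q y =>
      obtain ⟨a, p⟩ := p
      obtain ⟨b, q⟩ := q
      rw [beqL, Bool.and_eq_true, Bool.and_eq_true, decide_eq_true_iff] at h
      obtain ⟨⟨h1, h2⟩, h3⟩ := h
      rw [Nat.eq_of_beq_eq_true h1, h2, ih y h3]

theorem chkB_all {a b : ℕ} (ha : a < 5) (hb : b < 3) : chkB a b = true := by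
  interval_cases a <;> interval_cases b
  · exact chk00
  · exact chk01
  · exact chk02
  · exact chk10
  · exact chk11
  · exact chk12
  · exact chk20
  · exact chk21
  · exact chk22
  · exact chk30
  · exact chk31
  · exact chk32
  · exact chk40
  · exact chk41
  · exact chk42

theorem chk_all {a b c d e : ℕ} (ha : a < 5) (hb : b < 3) (hc : c < 3) (hd : d < 5) (he : e < 2) :
    chk a b c d e = true := by
  have h := chkB_all ha hb
  unfold chkB at h
  rw [List.all_eq_true] at h
  have h := h c (List.mem_range.2 hc)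
  rw [List.all_eq_true] at h
  have h := h d (List.mem_range.2 hd)
  rw [List.all_eq_true] at h
  exact h e (List.mem_range.2 he)

theorem ok_all {a b c d e : ℕ} (ha : a < 5) (hb : b < 3) (hc : c < 3) (hd : d < 5) (he : e < 2) :
    okL (a + b + c + d + e) (Ct a b c d e) := by
  have h := chk_all ha hb hc hd he
  unfold chk at h
  rw [Bool.and_eq_true] at h
  exact okB_sound h.1

theorem L1_all {a b c d e : ℕ} (ha : a < 5) (hb : b < 3) (hc : c < 3) (hd : d < 5) (he : e < 2) :
    L1 a b c d e = hsL (Ct a b c d e) := by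
  have h := chk_all ha hb hc hd he
  unfold chk at h
  rw [Bool.and_eq_true] at h
  exact beqL_sound _ _ h.2

attribute [local irreducible] Ct L1 hsL

/-- class of a vertex -/
def cl : Fin 13 → Fin 5 := ![0, 0, 0, 0, 1, 1, 2, 2, 3, 3, 3, 3, 4]

/-- adjacency of classes -/
def ac (i j : Fin 5) : Bool :=
  (i == 0 && j == 1) || (i == 1 && j == 0) || (i == 1 && j == 2) || (i == 2 && j == 1) ||
  (i == 2 && j == 3) || (i == 3 && j == 2)

/-- the blow-up of the path `P_4` with class sizes `4, 2, 2, 4`, plus an isolated vertex -/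
def G : SimpleGraph (Fin 13) where
  Adj u v := ac (cl u) (cl v) = true
  symm := ⟨by
    intro u v h
    revert h
    generalize cl u = i
    generalize cl v = j
    revert i j
    decide⟩
  loopless := ⟨by
    intro u
    generalize cl u = i
    revert i
    decide⟩

theorem τ_le (i : Fin 5) (T U : Finset (Fin 13)) (h : T ⊆ U) : τ cl i T ≤ τ cl i U :=
  Finset.card_le_card (Finset.filter_subset_filter _ h)

theorem τ_univ : τ cl 0 univ = 4 ∧ τ cl 1 univ = 2 ∧ τ cl 2 univ = 2 ∧ τ cl 3 univ = 4 ∧
    τ cl 4 univ = 1 := by decide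

theorem τ_lt (U : Finset (Fin 13)) : τ cl 0 U < 5 ∧ τ cl 1 U < 3 ∧ τ cl 2 U < 3 ∧ τ cl 3 U < 5 ∧
    τ cl 4 U < 2 := by
  obtain ⟨h0, h1, h2, h3, h4⟩ := τ_univ
  have h := fun i => τ_le i U univ (subset_univ U)
  have g0 := h 0
  have g1 := h 1
  have g2 := h 2
  have g3 := h 3
  have g4 := h 4
  omega

theorem τ_sdiff (i : Fin 5) (T U : Finset (Fin 13)) (h : T ⊆ U) :
    τ cl i (U \ T) = τ cl i U - τ cl i T := by
  unfold τ
  rw [← Finset.card_sdiff_of_subset (Finset.filter_subset_filter _ h)]
  congr 1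
  ext v
  simp only [mem_filter, mem_sdiff]
  tauto

theorem card_τ (T : Finset (Fin 13)) :
    T.card = τ cl 0 T + τ cl 1 T + τ cl 2 T + τ cl 3 T + τ cl 4 T := by
  rw [Finset.card_eq_sum_card_fiberwise (f := cl) (t := univ) (fun x _ => mem_univ _)]
  rw [Fin.sum_univ_five]
  rfl

theorem τ_zero (i : Fin 5) (T : Finset (Fin 13)) : τ cl i T = 0 ↔ ∀ v ∈ T, cl v ≠ i := by
  unfold τ
  rw [Finset.card_eq_zero, Finset.filter_eq_empty_iff]

theorem stab_iff (T : Finset (Fin 13)) :
    (∀ u ∈ T, ∀ v ∈ T, ¬ G.Adj u v) ↔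
      stabB (τ cl 0 T) (τ cl 1 T) (τ cl 2 T) (τ cl 3 T) = true := by
  unfold stabB
  simp only [Bool.and_eq_true, Bool.or_eq_true, beq_iff_eq, τ_zero]
  constructor
  · intro h
    refine ⟨⟨?_, ?_⟩, ?_⟩
    · by_contra hc
      push Not at hc
      obtain ⟨⟨u, hu, hu'⟩, v, hv, hv'⟩ := hc
      exact h u hu v hv (by show ac (cl u) (cl v) = true; rw [hu', hv']; decide)
    · by_contra hc
      push Not at hc
      obtain ⟨⟨u, hu, hu'⟩, v, hv, hv'⟩ := hc
      exact h u hu v hv (by show ac (cl u) (cl v) = true; rw [hu', hv']; decide)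
    · by_contra hc
      push Not at hc
      obtain ⟨⟨u, hu, hu'⟩, v, hv, hv'⟩ := hc
      exact h u hu v hv (by show ac (cl u) (cl v) = true; rw [hu', hv']; decide)
  · rintro ⟨⟨h1, h2⟩, h3⟩ u hu v hv huv
    change ac (cl u) (cl v) = true at huv
    unfold ac at huv
    simp only [Bool.or_eq_true, Bool.and_eq_true, beq_iff_eq] at huv
    rcases huv with ((((⟨a, b⟩ | ⟨a, b⟩) | ⟨a, b⟩) | ⟨a, b⟩) | ⟨a, b⟩) | ⟨a, b⟩
    · rcases h1 with h | h
      · exact h u hu a
      · exact h v hv b
    · rcases h1 with h | h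
      · exact h v hv b
      · exact h u hu a
    · rcases h2 with h | h
      · exact h u hu a
      · exact h v hv b
    · rcases h2 with h | h
      · exact h v hv b
      · exact h u hu a
    · rcases h3 with h | h
      · exact h u hu a
      · exact h v hv b
    · rcases h3 with h | h
      · exact h v hv b
      · exact h u hu a

theorem A_zero_of_pos (ν : YoungDiagram) (h : 0 < ν.card) : A 0 ν = 0 := by
  rw [A_eq]
  apply Finset.sum_eq_zero
  intro T _
  obtain ⟨p, hp⟩ := Finset.card_pos.1 h
  exact absurd (T.2 p hp) (Nat.not_lt_zero _)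

theorem A_zero_zero : A 0 (Y 0) = 1 := by
  have hv : Val 0 := by
    refine ⟨fun i => ?_, by norm_num⟩
    simp [row]
  have hc : (Y 0).cells = ∅ := by
    ext ⟨i, j⟩
    rw [YoungDiagram.mem_cells, mem_Y hv]
    simp [row]
  rw [A_eq]
  have hz : ∀ T : SemistandardYoungTableau (Y 0), ∀ i j, T i j = 0 := by
    intro T i j
    apply T.zeros
    rw [mem_Y hv]
    simp [row]
  let T0 : Tk 0 (Y 0) := ⟨{ entry := fun _ _ => 0
                            row_weak' := fun _ _ => le_rfl
                            col_strict' := by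
                              intro i1 i2 j _ h
                              rw [mem_Y hv] at h
                              simp [row] at h
                            zeros' := fun _ => rfl }, by
    intro p hp; rw [hc] at hp; simp at hp⟩
  have hu : (univ : Finset (Tk 0 (Y 0))) = {T0} := by
    ext T
    simp only [mem_univ, mem_singleton, true_iff]
    apply Subtype.ext
    apply SemistandardYoungTableau.ext
    intro i j
    rw [hz, hz]
  rw [hu, Finset.sum_singleton]
  apply Finset.prod_eq_one
  intro p hp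
  rw [hc] at hp
  simp at hp

theorem Ct_zero : Ct 0 0 0 0 0 = [(0, 1)] := by
  unfold Ct
  decide +kernel

theorem E'_L1 (k n a b c d e : ℕ) : E' k n (L1 a b c d e) =
    B a fun t0 => B b fun t1 => B c fun t2 => B d fun t3 => B e fun t4 =>
      E' k n (bif stabB t0 t1 t2 t3 then Ct (a - t0) (b - t1) (c - t2) (d - t3) (e - t4) else []) := by
  unfold L1 E'
  simp only [ev_BL]

theorem R_eq (k : ℕ) : ∀ U : Finset (Fin 13), R G.Adj k U =
    E k (Ct (τ cl 0 U) (τ cl 1 U) (τ cl 2 U) (τ cl 3 U) (τ cl 4 U)) := by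
  classical
  induction k with
  | zero =>
    intro U
    unfold R
    split_ifs with h
    · subst h
      have h0 : ∀ i, τ cl i (∅ : Finset (Fin 13)) = 0 := by intro i; simp [τ]
      simp only [h0, Ct_zero, E, ev_cons, ev_nil, A_zero_zero]
      simp
    · have hpos : 0 < U.card := Finset.card_pos.2 (Finset.nonempty_iff_ne_empty.2 h)
      rw [card_τ] at hpos
      obtain ⟨h0, h1, h2, h3, h4⟩ := τ_lt U
      have hok := ok_all h0 h1 h2 h3 h4
      symm
      unfold E
      have : ev (fun m => A 0 (Y m)) (Ct (τ cl 0 U) (τ cl 1 U) (τ cl 2 U) (τ cl 3 U) (τ cl 4 U))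
          = ev (fun _ => 0) (Ct (τ cl 0 U) (τ cl 1 U) (τ cl 2 U) (τ cl 3 U) (τ cl 4 U)) := by
        apply ev_congr
        intro p hp
        apply A_zero_of_pos
        rw [card_Y (hok p hp).1, (hok p hp).2]
        exact hpos
      rw [this]
      unfold ev
      simp
  | succ k ih =>
    intro U
    obtain ⟨h0, h1, h2, h3, h4⟩ := τ_lt U
    have hstep : R G.Adj (k + 1) U = ∑ T ∈ U.powerset,
        (fun a b c d e => (if stabB a b c d = true then
          (MvPolynomial.X k : MvPolynomial ℕ ℤ) ^ (a + b + c + d + e) *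
            E k (Ct (τ cl 0 U - a) (τ cl 1 U - b) (τ cl 2 U - c) (τ cl 3 U - d) (τ cl 4 U - e))
          else 0)) (τ cl 0 T) (τ cl 1 T) (τ cl 2 T) (τ cl 3 T) (τ cl 4 T) := by
      unfold R
      apply Finset.sum_congr rfl
      intro T hT
      rw [Finset.mem_powerset] at hT
      simp only [ih, τ_sdiff _ _ _ hT, ← card_τ]
      by_cases hs : stabB (τ cl 0 T) (τ cl 1 T) (τ cl 2 T) (τ cl 3 T) = true
      · rw [if_pos hs, if_pos ((stab_iff T).2 hs)]
      · rw [if_neg hs, if_neg (fun h => hs ((stab_iff T).1 h))]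
    rw [hstep, sum_powerset cl U (fun a b c d e => (if stabB a b c d = true then
          (MvPolynomial.X k : MvPolynomial ℕ ℤ) ^ (a + b + c + d + e) *
            E k (Ct (τ cl 0 U - a) (τ cl 1 U - b) (τ cl 2 U - c) (τ cl 3 U - d) (τ cl 4 U - e))
          else 0))]
    rw [E_succ k (τ cl 0 U + τ cl 1 U + τ cl 2 U + τ cl 3 U + τ cl 4 U) _ (ok_all h0 h1 h2 h3 h4),
      ← L1_all h0 h1 h2 h3 h4, E'_L1]
    generalize τ cl 0 U = u0 at *
    generalize τ cl 1 U = u1 at *
    generalize τ cl 2 U = u2 at *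
    generalize τ cl 3 U = u3 at *
    generalize τ cl 4 U = u4 at *
    apply B_congr; intro a ha
    apply B_congr; intro b hb
    apply B_congr; intro c hc
    apply B_congr; intro d hd
    apply B_congr; intro e he
    by_cases hs : stabB a b c d = true
    · rw [if_pos hs, hs, cond_true]
      rw [E'_of_ok k _ (a + b + c + d + e) _ (by omega)]
      have : u0 + u1 + u2 + u3 + u4 - (a + b + c + d + e)
          = (u0 - a) + (u1 - b) + (u2 - c) + (u3 - d) + (u4 - e) := by omega
      rw [this]
      exact ok_all (by omega) (by omega) (by omega) (by omega) (by omega)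
    · rw [if_neg hs]
      rw [Bool.not_eq_true] at hs
      rw [hs, cond_false]
      simp [E', ev]

end Pool.Agent.X137.Snp
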