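import Mathlib

set_option autoImplicit false

open Finset

namespace Pool.Agent.X137.Snp

/-- Semistandard tableaux of shape `ν` with entries `< k`. -/
abbrev Tk (k : ℕ) (ν : YoungDiagram) : Type :=
  {T : SemistandardYoungTableau ν // ∀ p ∈ ν.cells, T p.1 p.2 < k}

/-- Schur polynomial of shape `ν` in the variables `X 0, ..., X (k-1)`. -/
noncomputable def A (k : ℕ) (ν : YoungDiagram) : MvPolynomial ℕ ℤ :=
  ∑ᶠ T : {T : SemistandardYoungTableau ν // ∀ p ∈ ν.cells, T p.1 p.2 < k},
    ∏ p ∈ ν.cells, (MvPolynomial.X (T.1 p.1 p.2) : MvPolynomial ℕ ℤ)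

instance (k : ℕ) (ν : YoungDiagram) : Finite (Tk k ν) := by
  apply Finite.of_injective (β := ν.cells → Fin k)
    (fun T c => ⟨T.1 c.1.1 c.1.2, T.2 _ c.2⟩)
  intro T T' h
  apply Subtype.ext
  apply SemistandardYoungTableau.ext
  intro i j
  by_cases hc : (i, j) ∈ ν
  · have := congrFun h ⟨(i, j), (YoungDiagram.mem_cells _).2 hc⟩
    exact congrArg Fin.val this
  · rw [T.1.zeros hc, T'.1.zeros hc]

noncomputable instance (k : ℕ) (ν : YoungDiagram) : Fintype (Tk k ν) := Fintype.ofFinite _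

noncomputable instance (k : ℕ) (ν : YoungDiagram) : DecidableEq (Tk k ν) := Classical.decEq _

theorem A_eq (k : ℕ) (ν : YoungDiagram) :
    A k ν = ∑ T : Tk k ν, ∏ p ∈ ν.cells, (MvPolynomial.X (T.1 p.1 p.2) : MvPolynomial ℕ ℤ) := by
  unfold A
  exact finsum_eq_sum_of_fintype _

/-- `ν/μ` is a horizontal strip. -/
def HS (μ ν : YoungDiagram) : Prop := μ ≤ ν ∧ ∀ i j, (i + 1, j) ∈ ν → (i, j) ∈ μ

/-- the cells of a tableau with entry `< k` -/
def sh (k : ℕ) {ν : YoungDiagram} (T : SemistandardYoungTableau ν) : YoungDiagram where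
  cells := ν.cells.filter (fun p => T p.1 p.2 < k)
  isLowerSet := by
    rintro ⟨i, j⟩ ⟨i', j'⟩ h hm
    simp only [coe_filter, Set.mem_ofPred_eq, YoungDiagram.mem_cells] at hm ⊢
    obtain ⟨h1, h2⟩ := hm
    have hi : i' ≤ i := h.1
    have hj : j' ≤ j := h.2
    refine ⟨ν.up_left_mem hi hj h1, lt_of_le_of_lt ?_ h2⟩
    calc T i' j' ≤ T i j' := T.col_weak hi (ν.up_left_mem le_rfl hj h1)
      _ ≤ T i j := T.row_weak_of_le hj h1

theorem mem_sh (k : ℕ) {ν : YoungDiagram} (T : SemistandardYoungTableau ν) (i j : ℕ) :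
    (i, j) ∈ sh k T ↔ (i, j) ∈ ν ∧ T i j < k := by
  rw [← YoungDiagram.mem_cells]
  simp [sh]

theorem HS_sh (k : ℕ) {ν : YoungDiagram} (T : Tk (k + 1) ν) : HS (sh k T.1) ν := by
  refine ⟨?_, ?_⟩
  · intro p hp
    obtain ⟨i, j⟩ := p
    exact ((mem_sh k T.1 i j).1 hp).1
  · intro i j h
    rw [mem_sh]
    refine ⟨ν.up_left_mem (Nat.le_succ i) le_rfl h, ?_⟩
    have h1 := T.1.col_strict (show i < i + 1 by omega) h
    have h2 := T.2 (i + 1, j) ((YoungDiagram.mem_cells _).2 h)
    simp only at h2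
    omega

/-- restriction of a tableau -/
def restr {μ ν : YoungDiagram} (h : μ ≤ ν) (T : SemistandardYoungTableau ν) :
    SemistandardYoungTableau μ where
  entry i j := if (i, j) ∈ μ then T i j else 0
  row_weak' := by
    intro i j1 j2 hj hc
    rw [if_pos hc, if_pos (μ.up_left_mem le_rfl hj.le hc)]
    exact T.row_weak hj (h hc)
  col_strict' := by
    intro i1 i2 j hi hc
    rw [if_pos hc, if_pos (μ.up_left_mem hi.le le_rfl hc)]
    exact T.col_strict hi (h hc)
  zeros' := by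
    intro i j hc
    rw [if_neg hc]

theorem restr_apply {μ ν : YoungDiagram} (h : μ ≤ ν) (T : SemistandardYoungTableau ν) (i j : ℕ) :
    restr h T i j = if (i, j) ∈ μ then T i j else 0 := rfl

/-- extension of a tableau by entries `k` -/
def extd (k : ℕ) {μ ν : YoungDiagram} (h : HS μ ν) (T : Tk k μ) :
    SemistandardYoungTableau ν where
  entry i j := if (i, j) ∈ μ then T.1 i j else if (i, j) ∈ ν then k else 0
  row_weak' := by
    intro i j1 j2 hj hc
    by_cases h2 : (i, j2) ∈ μ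
    · rw [if_pos h2, if_pos (μ.up_left_mem le_rfl hj.le h2)]
      exact T.1.row_weak hj h2
    · rw [if_neg h2, if_pos hc]
      by_cases h1 : (i, j1) ∈ μ
      · rw [if_pos h1]
        exact (T.2 (i, j1) ((YoungDiagram.mem_cells _).2 h1)).le
      · rw [if_neg h1, if_pos (ν.up_left_mem le_rfl hj.le hc)]
  col_strict' := by
    intro i1 i2 j hi hc
    have h1 : (i1, j) ∈ μ := h.2 i1 j (ν.up_left_mem hi le_rfl hc)
    rw [if_pos h1]
    by_cases h2 : (i2, j) ∈ μ
    · rw [if_pos h2]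
      exact T.1.col_strict hi h2
    · rw [if_neg h2, if_pos hc]
      exact T.2 (i1, j) ((YoungDiagram.mem_cells _).2 h1)
  zeros' := by
    intro i j hc
    rw [if_neg (fun h' => hc (h.1 h')), if_neg hc]

theorem extd_apply (k : ℕ) {μ ν : YoungDiagram} (h : HS μ ν) (T : Tk k μ) (i j : ℕ) :
    extd k h T i j = if (i, j) ∈ μ then T.1 i j else if (i, j) ∈ ν then k else 0 := rfl

theorem A_succ (k : ℕ) (ν : YoungDiagram) (S : Finset YoungDiagram)
    (hS : ∀ μ, μ ∈ S ↔ HS μ ν) :
    A (k + 1) ν = ∑ μ ∈ S, (MvPolynomial.X k : MvPolynomial ℕ ℤ) ^ (ν.card - μ.card) * A k μ := by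
  classical
  rw [A_eq, ← Finset.sum_fiberwise_of_maps_to (s := univ) (t := S) (g := fun T : Tk (k + 1) ν => sh k T.1)
    (fun T _ => (hS _).2 (HS_sh k T))]
  apply Finset.sum_congr rfl
  intro μ hμ
  have hs : HS μ ν := (hS μ).1 hμ
  rw [A_eq, Finset.mul_sum]
  refine Finset.sum_bij' (i := fun T hT => (⟨restr hs.1 T.1, ?_⟩ : Tk k μ))
    (j := fun T _ => (⟨extd k hs T, ?_⟩ : Tk (k + 1) ν)) ?_ ?_ ?_ ?_ ?_
  · rintro ⟨i, j⟩ hp
    rw [YoungDiagram.mem_cells] at hp
    rw [restr_apply, if_pos hp]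
    have h1 : sh k T.1 = μ := (Finset.mem_filter.1 hT).2
    rw [← h1, mem_sh] at hp
    exact hp.2
  · rintro ⟨i, j⟩ hp
    rw [YoungDiagram.mem_cells] at hp
    simp only [extd_apply]
    split_ifs with h1
    · exact Nat.lt_succ_of_lt (T.2 (i, j) ((YoungDiagram.mem_cells _).2 h1))
    · exact Nat.lt_succ_self k
  · intro T hT
    exact Finset.mem_univ _
  · intro T _
    rw [Finset.mem_filter]
    refine ⟨Finset.mem_univ _, ?_⟩
    apply YoungDiagram.ext
    ext ⟨i, j⟩
    rw [YoungDiagram.mem_cells, YoungDiagram.mem_cells, mem_sh]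
    simp only [extd_apply]
    constructor
    · rintro ⟨h1, h2⟩
      by_contra h3
      rw [if_neg h3, if_pos h1] at h2
      exact lt_irrefl _ h2
    · intro h1
      refine ⟨hs.1 h1, ?_⟩
      rw [if_pos h1]
      exact T.2 (i, j) ((YoungDiagram.mem_cells _).2 h1)
  · intro T hT
    have h1 : sh k T.1 = μ := (Finset.mem_filter.1 hT).2
    apply Subtype.ext
    apply SemistandardYoungTableau.ext
    intro i j
    simp only [extd_apply, restr_apply]
    split_ifs with h2 h3
    · rfl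
    · have h4 : ¬ T.1 i j < k := fun h5 => h2 (by rw [← h1, mem_sh]; exact ⟨h3, h5⟩)
      have h5 := T.2 (i, j) ((YoungDiagram.mem_cells _).2 h3)
      simp only at h5
      omega
    · exact (T.1.zeros h3).symm
  · intro T _
    apply Subtype.ext
    apply SemistandardYoungTableau.ext
    intro i j
    simp only [extd_apply, restr_apply]
    split_ifs with h2
    · rfl
    · exact (T.1.zeros h2).symm
  · intro T hT
    have h1 : sh k T.1 = μ := (Finset.mem_filter.1 hT).2
    have hsub : μ.cells ⊆ ν.cells := hs.1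
    rw [← Finset.prod_sdiff hsub]
    congr 1
    · have h2 : ∀ p ∈ ν.cells \ μ.cells, (MvPolynomial.X (T.1 p.1 p.2) : MvPolynomial ℕ ℤ)
          = MvPolynomial.X k := by
        rintro ⟨i, j⟩ hp
        rw [Finset.mem_sdiff, YoungDiagram.mem_cells, YoungDiagram.mem_cells] at hp
        have h4 : ¬ T.1 i j < k := fun h5 => hp.2 (by rw [← h1, mem_sh]; exact ⟨hp.1, h5⟩)
        have h5 := T.2 (i, j) ((YoungDiagram.mem_cells _).2 hp.1)
        simp only at h5 ⊢
        have : T.1 i j = k := by omega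
        rw [this]
      rw [Finset.prod_congr rfl h2, Finset.prod_const, Finset.card_sdiff_of_subset hsub]
    · apply Finset.prod_congr rfl
      rintro ⟨i, j⟩ hp
      rw [YoungDiagram.mem_cells] at hp
      simp only [restr_apply, if_pos hp]

end Pool.Agent.X137.Snp
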